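import Pool.Agent.D0H63.MR.PairsM
import Pool.Agent.Results.MP_f5471b_nt.EveryOneParameterFamily

/-!
# The strong Lang-Silverman alternative at all rational approximations of a number, real or `p`-adic, in every one-parameter family,
# outside ONE set of Hausdorff dimension zero

Let `J = A / D` be a non-constant rational function over `ℚ`, for example the `j`-invariant of an elliptic curve over `ℚ(T)`, and
let `ξ` be a real or a `p`-adic number. We consider the members of the family over ALL the rational approximations `s / t` of `ξ`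
with `|ξ - s / t| ≤ C H(s / t) ^ (-τ)`, where `H(s / t) = max (|s|, |t|)`; here `τ > 0` is arbitrary. For `τ = 2` and a suitable `C`
these are all the convergents of a real `ξ` and more; for almost all `ξ` there are only about `log B` of them of height at most
`B`.

Theorem. There is ONE set of real (`p`-adic) numbers, of Hausdorff dimension zero, such that for all `ξ` outside this set, all `N`,
`d`, `g`, `κ` and `τ > 0` there are constants `c₁ > 0` and `c₂` such that for EVERY rational function `J` of degree `N` with at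
least two poles and every `C` all but finitely many of the rational numbers `s / t` with `|ξ - s / t| ≤ C H(s / t) ^ (-τ)` have the
following property: for all elliptic curves `E` of invariant `J (s / t)` over all number fields `K` of degree at most `d`, for all
forms `A` over `K` of `E ^ g`, all polarizations of `A` and all `P` in `A(K)`, either `P` has order at most `c₂` modulo a proper
abelian subvariety of degree at most `c₂` times that of `A`, or the canonical height of `P` is at least `c₁` times the height of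
`A`. In particular the torsion is bounded.
The constants are uniform outside sets of small dimension: for all `N`, `d`, `g`, `κ`, `τ` and `δ > 0` there are `c₁ > 0`, `c₂` and a
set of dimension at most `δ` such that the statement is true with `c₁` and `c₂` for all `ξ` outside this set, and for all functions
of degree `N`, those with one pole only included, outside a set of dimension at most `1 / τ + δ` (so that for `τ > 1` it is a null
set of real numbers if `δ` is small).
More generally `ξ` can be a point of any metric space `Y`, if there is any map `φ` from the rational numbers `(s : t)`, infinity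
included, to `Y`, and `dist ξ (φ (s, t)) ≤ C H(s / t) ^ (-τ)`: for instance `Y = ℝ × ℚ_p × ℚ_q` or `Y = ℝ ^ n` and a curve `φ`.

The definitions are those of the starting file `EveryOneParameterFamily`, where it is proved that the number of the exceptional
`s / t` of height at most `B` is at most `C B ^ ε`. This says nothing about the approximations of a given number, which are
fewer than `B ^ ε`.
-/

set_option autoImplicit false

namespace Pool.Agent.D0H63.Moved.AllRationalApproximations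

open Polynomial MeasureTheory NumberField
open Pool.Agent.TH910.LS Pool.Agent.Y725.LS
open Pool.Agent.Results.MP_f5471b_nt
open Pool.Agent.Results.MP_f5471b_nt.EveryOneParameterFamily (HoldsAt HoldsRat IsFunction poleCount formValue Pairs)

/-- for every `C` all but finitely many pairs `(s, t)` of coprime integers with `dist ξ (φ (s, t)) ≤ C max (|s|, |t|) ^ (-τ)` satisfy:
`(s : t)` is not a pole of `A / D` and the alternative with the constants `c₁`, `c₂` holds at `(A / D) (s : t)` -/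
def HoldsNear {Y : Type} [MetricSpace Y] (φ : ℤ × ℤ → Y) (c₁ : ℝ) (c₂ d g : ℕ) (κ τ : ℝ) (N : ℕ) (A D : ℤ[X]) (ξ : Y) :
    Prop :=
  ∀ C : ℝ, {P : ℤ × ℤ | IsCoprime P.1 P.2 ∧ dist ξ (φ P) ≤ C * ((max |P.1| |P.2| : ℤ) : ℝ) ^ (-τ) ∧
    ¬ HoldsRat c₁ c₂ d g κ N A D P}.Finite

theorem holdsAt_anti {c₁ : ℝ} {c₂ d g : ℕ} {κ κ' : ℝ} (h : κ ≤ κ') {j : ℚ} (H : HoldsAt c₁ c₂ d g κ' j) :
    HoldsAt c₁ c₂ d g κ j := by
  intro K _ _ hK a b hab hle hj L _ _ _ _ _
  refine H K hK a b hab (hle.trans (mul_le_mul_of_nonneg_right h ?_)) hj L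
  have := Pool.Agent.Y728.AK.absH_nonneg (jinv (a : K) b)
  linarith

theorem HoldsNear.mono {Y : Type} [MetricSpace Y] {φ : ℤ × ℤ → Y} {c₁ : ℝ} {c₂ d g : ℕ} {κ κ' τ τ' : ℝ} {N : ℕ}
    {A D : ℤ[X]} {ξ : Y} (hκ : κ ≤ κ') (hτ : τ' ≤ τ) (H : HoldsNear φ c₁ c₂ d g κ' τ' N A D ξ) :
    HoldsNear φ c₁ c₂ d g κ τ N A D ξ := by
  intro C
  refine (H |C|).subset ?_
  rintro P ⟨h1, h3, h4⟩
  refine ⟨h1, h3.trans ?_, fun h5 => h4 ⟨h5.1, holdsAt_anti hκ h5.2⟩⟩
  have hb1 : (1 : ℝ) ≤ ((max |P.1| |P.2| : ℤ) : ℝ) := by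
    have : 1 ≤ max |P.1| |P.2| := by
      by_contra hlt
      push Not at hlt
      have h6 : |P.1| ≤ max |P.1| |P.2| := le_max_left _ _
      have h7 : |P.2| ≤ max |P.1| |P.2| := le_max_right _ _
      have h8 : P.1 = 0 := abs_nonpos_iff.1 (by omega)
      have h9 : P.2 = 0 := abs_nonpos_iff.1 (by omega)
      rw [h8, h9] at h1
      exact not_isCoprime_zero_zero h1
    exact_mod_cast this
  calc C * ((max |P.1| |P.2| : ℤ) : ℝ) ^ (-τ) ≤ |C| * ((max |P.1| |P.2| : ℤ) : ℝ) ^ (-τ) :=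
        mul_le_mul_of_nonneg_right (le_abs_self C) (by positivity)
    _ ≤ |C| * ((max |P.1| |P.2| : ℤ) : ℝ) ^ (-τ') :=
      mul_le_mul_of_nonneg_left (Real.rpow_le_rpow_of_exponent_le hb1 (by linarith)) (abs_nonneg C)

theorem countable_poly : Countable ℤ[X] := by
  have h2 : Function.Injective (fun p : ℤ[X] => (List.range (p.natDegree + 1)).map p.coeff) := by
    intro p q hpq
    simp only at hpq
    have h3 : p.natDegree = q.natDegree := by
      have := congrArg List.length hpq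
      simpa using this
    ext n
    by_cases hn : n ≤ p.natDegree
    · rw [h3] at hpq
      have h4 := List.map_inj_left.1 hpq n (List.mem_range.2 (by omega))
      exact h4
    · rw [Polynomial.coeff_eq_zero_of_natDegree_lt (by omega), Polynomial.coeff_eq_zero_of_natDegree_lt (by omega)]
  exact h2.countable

theorem one (N d g : ℕ) (κ τ δ : ℝ) (hg : 0 < g) (hκ : 0 ≤ κ) (hτ : 0 < τ) (hδ : 0 < δ) :
    ∃ (c₁ : ℝ) (c₂ : ℕ), 0 < c₁ ∧ ∀ (Y : Type) [MetricSpace Y] (φ : ℤ × ℤ → Y),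
      (∃ E : Set Y, dimH E ≤ ENNReal.ofReal δ ∧ ∀ ξ : Y, ξ ∉ E → ∀ A D : ℤ[X], IsFunction N A D →
        2 ≤ poleCount N D → HoldsNear φ c₁ c₂ d g κ τ N A D ξ) ∧
      ∃ E : Set Y, dimH E ≤ ENNReal.ofReal (1 / τ + δ) ∧ ∀ ξ : Y, ξ ∉ E → ∀ A D : ℤ[X], IsFunction N A D →
        HoldsNear φ c₁ c₂ d g κ τ N A D ξ := by
  classical
  obtain ⟨c₁, c₂, hc₁, H⟩ := EveryOneParameterFamily.result.1 N d g κ (δ * τ) hg hκ (by positivity)
  have hcount1 : Countable ℤ[X] := countable_poly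
  have e1 : δ * τ / τ = δ := mul_div_cancel_right₀ _ hτ.ne'
  have e2 : (1 + δ * τ) / τ = 1 / τ + δ := by field_simp
  refine ⟨c₁, c₂, hc₁, fun Y _ φ => ⟨⟨⋃ F : ℤ[X] × ℤ[X], {ξ : Y | IsFunction N F.1 F.2 ∧ 2 ≤ poleCount N F.2 ∧
    ¬ HoldsNear φ c₁ c₂ d g κ τ N F.1 F.2 ξ}, ?_, fun ξ hξ A D hR h2 => ?_⟩,
    ⟨⋃ F : ℤ[X] × ℤ[X], {ξ : Y | IsFunction N F.1 F.2 ∧ ¬ HoldsNear φ c₁ c₂ d g κ τ N F.1 F.2 ξ}, ?_,
      fun ξ hξ A D hR => ?_⟩⟩⟩
  · rw [dimH_iUnion]
    refine iSup_le fun F => ?_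
    by_cases hF : IsFunction N F.1 F.2 ∧ 2 ≤ poleCount N F.2
    · obtain ⟨C, hC⟩ := (H F.1 F.2 hF.1).2.1 hF.2
      have h1 := Pool.Agent.D0H63.MR.pairs_metric φ {P : ℤ × ℤ | ¬ HoldsRat c₁ c₂ d g κ N F.1 F.2 P} (s := δ * τ)
        (τ := τ) (by positivity) hτ ⟨C, fun B hB => hC B hB⟩
      rw [e1] at h1
      refine le_trans (dimH_mono ?_) h1
      rintro ξ ⟨-, -, h3⟩ h4
      exact h3 h4
    · have : {ξ : Y | IsFunction N F.1 F.2 ∧ 2 ≤ poleCount N F.2 ∧ ¬ HoldsNear φ c₁ c₂ d g κ τ N F.1 F.2 ξ} = ∅ := by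
        rw [Set.eq_empty_iff_forall_notMem]
        rintro ξ ⟨h1, h2, -⟩
        exact hF ⟨h1, h2⟩
      rw [this, dimH_empty]
      exact bot_le
  · by_contra hcon
    exact hξ (Set.mem_iUnion.2 ⟨(A, D), hR, h2, hcon⟩)
  · rw [dimH_iUnion]
    refine iSup_le fun F => ?_
    by_cases hF : IsFunction N F.1 F.2
    · obtain ⟨C, hC⟩ := (H F.1 F.2 hF).1
      have h1 := Pool.Agent.D0H63.MR.pairs_metric φ {P : ℤ × ℤ | ¬ HoldsRat c₁ c₂ d g κ N F.1 F.2 P} (s := 1 + δ * τ)
        (τ := τ) (by positivity) hτ ⟨C, fun B hB => hC B hB⟩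
      rw [e2] at h1
      refine le_trans (dimH_mono ?_) h1
      rintro ξ ⟨-, h3⟩ h4
      exact h3 h4
    · have : {ξ : Y | IsFunction N F.1 F.2 ∧ ¬ HoldsNear φ c₁ c₂ d g κ τ N F.1 F.2 ξ} = ∅ := by
        rw [Set.eq_empty_iff_forall_notMem]
        rintro ξ ⟨h1, -⟩
        exact hF h1
      rw [this, dimH_empty]
      exact bot_le
  · by_contra hcon
    exact hξ (Set.mem_iUnion.2 ⟨(A, D), hR, hcon⟩)

/-- **Theorem.** (1) For all `N`, `d`, `g`, `κ`, `τ > 0` and `δ > 0` there are constants `c₁ > 0` and `c₂` such that for every metric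
space `Y` and every map `φ` from the pairs of integers to `Y` (for example `φ (s, t) = s / t` and `Y = ℝ` or `ℚ_p`), for all `ξ` in `Y`
outside a set of Hausdorff dimension at most `δ` the alternative with these constants holds at all but finitely many rational
approximations of `ξ` with the exponent `τ` for all rational functions of degree `N` with at least two poles, and outside a set of
dimension at most `1 / τ + δ` for all rational functions of degree `N`. (2) For every `Y` and `φ` there is one set `E` of Hausdorff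
dimension zero such that for all `ξ` outside `E`, all `N`, `d`, `g`, `κ` and `τ > 0` there are `c₁ > 0` and `c₂` such that this
is true for all rational functions of degree `N` with at least two poles. (3) Every `j ≠ 0, 1728` is the invariant of a curve
with small coefficients, as assumed in `HoldsAt`, with a `κ` depending only on `d`. -/
theorem result :
    (∀ (N d g : ℕ) (κ τ δ : ℝ), 0 < g → 0 ≤ κ → 0 < τ → 0 < δ → ∃ (c₁ : ℝ) (c₂ : ℕ), 0 < c₁ ∧
      ∀ (Y : Type) [MetricSpace Y] (φ : ℤ × ℤ → Y),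
      (∃ E : Set Y, dimH E ≤ ENNReal.ofReal δ ∧ ∀ ξ : Y, ξ ∉ E → ∀ A D : ℤ[X], IsFunction N A D →
        2 ≤ poleCount N D → HoldsNear φ c₁ c₂ d g κ τ N A D ξ) ∧
      ∃ E : Set Y, dimH E ≤ ENNReal.ofReal (1 / τ + δ) ∧ ∀ ξ : Y, ξ ∉ E → ∀ A D : ℤ[X], IsFunction N A D →
        HoldsNear φ c₁ c₂ d g κ τ N A D ξ) ∧
    (∀ (Y : Type) [MetricSpace Y] (φ : ℤ × ℤ → Y),
      ∃ E : Set Y, dimH E = 0 ∧ ∀ ξ : Y, ξ ∉ E → ∀ (N d g : ℕ) (κ τ : ℝ), 0 < g → 0 ≤ κ → 0 < τ →
      ∃ (c₁ : ℝ) (c₂ : ℕ), 0 < c₁ ∧ ∀ A D : ℤ[X], IsFunction N A D → 2 ≤ poleCount N D →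
        HoldsNear φ c₁ c₂ d g κ τ N A D ξ) ∧
    (∀ d : ℕ, ∃ κ : ℝ, 0 ≤ κ ∧ ∀ (K : Type) [Field K] [NumberField K],
      Module.finrank ℚ K ≤ d → ∀ j : K, j ≠ 0 → j ≠ 1728 → ∃ a b : 𝓞 K,
        4 * (a : K) ^ 3 + 27 * (b : K) ^ 2 ≠ 0 ∧ jinv (a : K) b = j ∧
        absH (a : K) + absH (b : K) ≤ κ * (1 + absH j)) := by
  classical
  refine ⟨one, fun Y _ φ => ?_, EveryOneParameterFamily.result.2⟩
  have h1 : ∀ (q : ℕ × ℕ × ℕ × ℕ × ℕ) (k : ℕ), ∃ (c₁ : ℝ) (c₂ : ℕ), 0 < c₁ ∧
      ∃ E : Set Y, dimH E ≤ ENNReal.ofReal (1 / ((k : ℝ) + 1)) ∧ ∀ ξ : Y, ξ ∉ E → ∀ A D : ℤ[X], IsFunction q.1 A D →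
        2 ≤ poleCount q.1 D → HoldsNear φ c₁ c₂ q.2.1 (q.2.2.1 + 1) q.2.2.2.1 (1 / ((q.2.2.2.2 : ℝ) + 1)) q.1 A D ξ := by
    intro q k
    obtain ⟨c₁, c₂, hc₁, h⟩ := one q.1 q.2.1 (q.2.2.1 + 1) q.2.2.2.1 (1 / ((q.2.2.2.2 : ℝ) + 1)) (1 / ((k : ℝ) + 1))
      (by omega) (Nat.cast_nonneg _) (by positivity) (by positivity)
    exact ⟨c₁, c₂, hc₁, (h Y φ).1⟩
  choose c₁ c₂ hc₁ E hE hE' using h1
  refine ⟨⋃ q, ⋂ k, E q k, ?_, fun ξ hξ N d g κ τ hg hκ hτ => ?_⟩
  · rw [dimH_iUnion]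
    refine le_antisymm (iSup_le fun q => ?_) bot_le
    have h2 : ∀ k : ℕ, dimH (⋂ k, E q k) ≤ ENNReal.ofReal (1 / ((k : ℝ) + 1)) := fun k =>
      (dimH_mono (Set.iInter_subset _ k)).trans (hE q k)
    refine Pool.Agent.N84.MD.dim_le_of_forall (d := 0) le_rfl (fun D hD => ?_) |>.trans (by simp)
    obtain ⟨k, hk⟩ := exists_nat_one_div_lt hD
    exact (h2 k).trans (ENNReal.ofReal_le_ofReal hk.le)
  · obtain ⟨κ', hκ'⟩ := exists_nat_ge κ
    obtain ⟨m, hm⟩ := exists_nat_one_div_lt hτ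
    rw [Set.mem_iUnion] at hξ
    push Not at hξ
    have h3 := hξ (N, d, g - 1, κ', m)
    rw [Set.mem_iInter] at h3
    push Not at h3
    obtain ⟨k, hk⟩ := h3
    refine ⟨c₁ (N, d, g - 1, κ', m) k, c₂ (N, d, g - 1, κ', m) k, hc₁ (N, d, g - 1, κ', m) k, fun A D hR h2 => ?_⟩
    have h4 := hE' (N, d, g - 1, κ', m) k ξ hk A D hR h2
    simp only [Nat.sub_add_cancel hg] at h4
    exact h4.mono hκ' hm.le

end Pool.Agent.D0H63.Moved.AllRationalApproximations
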